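import Pool.Agent.Lib.LU2_h90.NoGrowth
import Pool.Agent.Lib.LU1_h90.PITail
import Pool.Agent.Lib.LU1_h15.Tail

/-!
# LU2: no infinite chain of steps without growth with a stuck visible order `D ≥ 2`
-/

set_option autoImplicit false

open Polynomial

namespace Pool.Agent.LU2T

open Pool.Agent.LU1 (Lau mon cf co SuppIn IsLD All Chn Ysum)
open Pool.Agent.LU1.R1 (co_zero co_add co_sum co_ext co_monomial)

universe u

variable {F : Type u} [Field F]

/-- `pi_tail` for Laurent polynomials with real exponents. -/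
theorem PITAIL (p : ℕ) [hp : Fact p.Prime] [CharP F p] {ι : Type*} [Finite ι]
    (δ : ι → Derivation ℤ F F) (hδ : ∀ x, (∀ i, δ i x = 0) → ∃ y, x = y ^ p)
    (Γ : AddSubgroup ℝ) (B : ℕ → ℝ)
    (c : ℕ → F) (h : Chn Γ B c) (G : (Lau F)[X]) (hG : SuppIn Γ G) (D : ℕ) (hD : 2 ≤ D) (ρ : ℝ)
    (hρ : ρ ∈ Γ) (s0 : ℕ) (Gs hs : ℕ → (Lau F)[X])
    (hGs : ∀ s, s0 ≤ s → SuppIn Γ (Gs s)) (hhs : ∀ s, s0 ≤ s → SuppIn Γ (hs s))
    (heq : ∀ s, s0 ≤ s → taylor (Ysum B c s) G = Gs s + hs s ^ p)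
    (h1 : ∀ s, s0 ≤ s → ∀ γ l, co (Gs s) γ l ≠ 0 → ρ + D * B s ≤ γ + l * B s)
    (h2 : ∀ s, s0 ≤ s → co (Gs s) ρ D ≠ 0)
    (h3 : ∀ s, s0 ≤ s → Inv p Γ ρ D → ∀ x, co (Gs s) ρ D ≠ x ^ p) : False := by
  classical
  obtain ⟨G', rfl⟩ := LU1T.exists_map hG
  have hex : ∀ s, ∃ R h' : (AddMonoidAlgebra F Γ)[X], s0 ≤ s →
      R.map (LU1T.incl F Γ) = Gs s ∧ h'.map (LU1T.incl F Γ) = hs s := by
    intro s
    by_cases hss : s0 ≤ s
    · obtain ⟨R, hR⟩ := LU1T.exists_map (hGs s hss)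
      obtain ⟨h', hh'⟩ := LU1T.exists_map (hhs s hss)
      exact ⟨R, h', fun _ => ⟨hR, hh'⟩⟩
    · exact ⟨0, 0, fun h => absurd h hss⟩
  choose R h' hRh using hex
  have hco : ∀ (P : (Lau F)[X]) (P' : (AddMonoidAlgebra F Γ)[X]),
      P'.map (LU1T.incl F Γ) = P → ∀ (γ : Γ) (l : ℕ), co P (γ : ℝ) l = (P'.coeff l).coeff γ := by
    rintro P P' rfl γ l
    exact LU1T.co_map P' γ l
  refine LU1T.pi_tail p h.fg h.pcs δ hδ (G := G') (D := D) (ρ := ⟨ρ, hρ⟩) hD (s₀ := s0) (R := R)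
    (h := h') (fun t ht => ?_) (fun t ht l θ hθ => ?_) (fun t ht => ?_) (fun t ht => ?_)
  · obtain ⟨e1, e2⟩ := hRh t ht
    rw [← LU1T.map_inj, map_taylor, ← h.Ysum_eq, heq t ht, Polynomial.map_add,
      Polynomial.map_pow, e1, e2]
  · rw [← hco _ _ (hRh t ht).1] at hθ
    have h5 := h1 t ht _ _ hθ
    have h6 : ((h.seq t : Γ) : ℝ) = B t := rfl
    rw [h6]
    linarith
  · rw [← hco _ _ (hRh t ht).1]
    exact h2 t ht
  · rintro ⟨h4, ⟨η, hη⟩, x, hx⟩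
    rw [← hco _ _ (hRh t ht).1] at hx
    refine h3 t ht ⟨h4, η, η.2, ?_⟩ x hx
    have h5 := congrArg (fun g : Γ => (g : ℝ)) hη
    simp only [AddSubgroup.coe_nsmul, nsmul_eq_mul] at h5
    exact h5

theorem mon_zero_one' : (mon (0 : ℝ) (1 : F) : Lau F) = 1 := rfl

theorem suppIn_comp {Γ : AddSubgroup ℝ} {β : ℝ} (hβΓ : β ∈ Γ) (c : F) {P : (Lau F)[X]}
    (hP : SuppIn Γ P) : SuppIn Γ (P.comp (C (mon β 1) * (C (mon 0 c) + X))) := by
  rw [← Pool.Agent.LU1.tpoly_one β c (fun _ l => l) P (fun _ _ _ => rfl)]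
  have h1 := SuppIn.tpoly (β := β) (c := c) (s := fun _ l => l) hP
  rwa [sup_eq hβΓ] at h1

/-- The exponents of a chain without growth. -/
noncomputable def bs (β : ℕ → ℝ) (n : ℕ) : ℝ := ∑ i ∈ Finset.range n, β i

theorem bs_zero (β : ℕ → ℝ) : bs β 0 = 0 := by simp [bs]

theorem bs_succ (β : ℕ → ℝ) (n : ℕ) : bs β (n + 1) = bs β n + β n := by
  simp [bs, Finset.sum_range_succ]

/-- The transform of `G` after `n` steps without growth. -/
noncomputable def Gn (β : ℕ → ℝ) (c : ℕ → F) (G : (Lau F)[X]) (n : ℕ) : (Lau F)[X] :=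
  (taylor (Ysum (fun i => bs β (i + 1)) c n) G).comp (C (mon (bs β n) 1) * X)

theorem Gn_zero (β : ℕ → ℝ) (c : ℕ → F) (G : (Lau F)[X]) : Gn β c G 0 = G := by
  rw [Gn, bs_zero, mon_zero_one', C_1, one_mul, comp_X, Ysum, Finset.range_zero, Finset.sum_empty,
    taylor_zero]

theorem Gn_succ (β : ℕ → ℝ) (c : ℕ → F) (G : (Lau F)[X]) (n : ℕ) :
    Gn β c G (n + 1) = (Gn β c G n).comp (C (mon (β n) 1) * (C (mon 0 (c n)) + X)) := by
  rw [Gn, Gn, Pool.Agent.LU1.comp_taylor_step]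
  have e1 : Ysum (fun i => bs β (i + 1)) c (n + 1) =
      Ysum (fun i => bs β (i + 1)) c n + mon (bs β n + β n) (c n) := by
    rw [Ysum, Ysum, Finset.sum_range_succ]
    simp only [bs_succ]
  rw [e1, bs_succ]

/-- **STUCK**. -/
theorem stuck (p : ℕ) [hp : Fact p.Prime] [CharP F p] (O : Om F p) {ι : Type*} [Finite ι]
    (δ : ι → Derivation ℤ F F) (hδ : ∀ x, (∀ i, δ i x = 0) → ∃ y, x = y ^ p)
    {Γ : AddSubgroup ℝ} (hfg : Γ.FG) (β : ℕ → ℝ) (c : ℕ → F) (hβ : ∀ n, 0 < β n)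
    (hβΓ : ∀ n, β n ∈ Γ) (hc : ∀ n, c n ≠ 0) (hbdd : BddAbove (Set.range (bs β)))
    (G : (Lau F)[X]) (hG : SuppIn Γ G) (P : ℕ → (Lau F)[X])
    (hP : ∀ n, VisPart O Γ (Gn β c G n) (P n)) {D : ℕ} (hD : 2 ≤ D) {κ : ℝ}
    (h0 : IsLD All (P 0) 0 κ D)
    (hnd : ∀ n κ' D', κ' ≤ κ + D * bs β n → IsLD All (P n) 0 κ' D' → D ≤ D') : False := by
  classical
  have hbΓ : ∀ n, bs β n ∈ Γ := by
    intro n
    induction n with
    | zero => rw [bs_zero]; exact Γ.zero_mem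
    | succ n ih => rw [bs_succ]; exact Γ.add_mem ih (hβΓ n)
  have hbmono : StrictMono (bs β) := strictMono_nat_of_lt_succ fun n => by
    rw [bs_succ]
    linarith [hβ n]
  have hGn : ∀ n, SuppIn Γ (Gn β c G n) := by
    intro n
    induction n with
    | zero => rw [Gn_zero]; exact hG
    | succ n ih => rw [Gn_succ]; exact suppIn_comp (hβΓ n) (c n) ih
  have hPΓ : ∀ n, SuppIn Γ (P n) := fun n => (hP n).suppIn (hGn n)
  have hroot : ∀ n, ∃ h : (Lau F)[X], SuppIn Γ h ∧ Gn β c G n = P n + h ^ p := by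
    intro n
    obtain ⟨V, h, h1, h2, h3⟩ := exists_visPart p O (hGn n)
    rw [(hP n).unique h1]
    exact ⟨h, h2, h3⟩
  choose h hhΓ hhG using hroot
  -- the visible part of the transform of `P n`
  have hstep : ∀ n, VisPart O Γ ((P n).comp (C (mon (β n) 1) * (C (mon 0 (c n)) + X)))
      (P (n + 1)) := by
    intro n
    obtain ⟨V, h', h1, h2, h3⟩ := exists_visPart p O (suppIn_comp (hβΓ n) (c n) (hPΓ n))
    have h4 := h1.add (visPart_pow p O (suppIn_comp (hβΓ n) (c n) (hhΓ n)))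
    rw [add_zero, ← pow_comp, ← add_comp, ← hhG n, ← Gn_succ] at h4
    rw [(hP (n + 1)).unique h4]
    exact h1
  have hLD : ∀ n, IsLD All (P n) 0 (κ + D * bs β n) D := by
    intro n
    induction n with
    | zero => rw [bs_zero, mul_zero, add_zero]; exact h0
    | succ n ih =>
      obtain ⟨τ, j, h1, -, h3, h4, h5⟩ := poly_step p O (hβ n) (hβΓ n) (hc n) (hPΓ n)
        (hP n).nfm ih (hstep n)
      have h6 : κ + D * bs β n + D * β n = κ + D * bs β (n + 1) := by rw [bs_succ]; ring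
      rw [h6] at h3 h5
      have h7 := hnd (n + 1) τ j h3 h1
      have h8 : j = D := by omega
      rw [h8] at h1
      rw [← h5 hD h8]
      exact h1
  have hge : ∀ n γ l, co (P n) γ l ≠ 0 → κ + D * bs β (n + 1) ≤ γ + l * β n := by
    intro n
    obtain ⟨τ, j, h1, h2, h3, h4, h5⟩ := poly_step p O (hβ n) (hβΓ n) (hc n) (hPΓ n)
      (hP n).nfm (hLD n) (hstep n)
    have h6 : κ + D * bs β n + D * β n = κ + D * bs β (n + 1) := by rw [bs_succ]; ring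
    rw [h6] at h3 h5
    have h7 := hnd (n + 1) τ j h3 h1
    rw [← h5 hD (by omega)]
    exact h2
  have hκ : κ ∈ Γ := by
    have h1 := (hLD 0).2.2.1
    rw [mul_zero, sub_zero, bs_zero, mul_zero, add_zero] at h1
    exact hPΓ 0 _ _ h1
  have hChn : Chn Γ (fun i => bs β (i + 1)) c :=
    ⟨hfg, fun i => hbΓ _, fun i j hij => hbmono (Nat.succ_lt_succ hij), by
      obtain ⟨M, hM⟩ := hbdd
      refine ⟨M, ?_⟩
      rintro _ ⟨n, rfl⟩
      exact hM ⟨n + 1, rfl⟩, hc⟩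
  have hback : ∀ n, (Gn β c G n).comp (C (mon (-bs β n) 1) * X) =
      taylor (Ysum (fun i => bs β (i + 1)) c n) G := by
    intro n
    rw [Gn, comp_assoc]
    have h1 : ((C (mon (bs β n) 1) * X : (Lau F)[X])).comp (C (mon (-bs β n) 1) * X) = X := by
      rw [mul_comp, C_comp, X_comp, ← mul_assoc, ← C_mul, Pool.Agent.LU1.A3.mon_mul_mon,
        add_neg_cancel, mul_one, mon_zero_one', C_1, one_mul]
    rw [h1, comp_X]
  have hcomp : ∀ n (Q : (Lau F)[X]) γ l, co (Q.comp (C (mon (-bs β n) 1) * X)) γ l =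
      co Q (γ + l * bs β n) l := by
    intro n Q γ l
    rw [Pool.Agent.LU1.co_comp_mon]
    congr 1
    ring
  have hsupp : ∀ n (Q : (Lau F)[X]), SuppIn Γ Q →
      SuppIn Γ (Q.comp (C (mon (-bs β n) 1) * X)) := by
    intro n Q hQ γ l h1
    rw [hcomp] at h1
    have h2 := Γ.sub_mem (hQ _ _ h1) (Γ.nsmul_mem (hbΓ n) l)
    rwa [nsmul_eq_mul, add_sub_cancel_right] at h2
  refine PITAIL p δ hδ Γ (fun i => bs β (i + 1)) c hChn G hG D hD κ hκ 0
    (fun n => (P n).comp (C (mon (-bs β n) 1) * X))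
    (fun n => (h n).comp (C (mon (-bs β n) 1) * X))
    (fun n _ => hsupp n _ (hPΓ n)) (fun n _ => hsupp n _ (hhΓ n)) (fun n _ => ?_)
    (fun n _ γ l h1 => ?_) (fun n _ => ?_) (fun n _ h1 x h2 => ?_)
  · rw [← hback n, hhG n, add_comp, pow_comp]
  · rw [hcomp] at h1
    have h2 := hge n _ _ h1
    rw [bs_succ] at h2 ⊢
    linarith
  · rw [hcomp]
    have h1 := (hLD n).2.2.1
    rwa [mul_zero, sub_zero] at h1
  · rw [hcomp] at h2
    have h3 := (hLD n).2.2.1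
    rw [mul_zero, sub_zero] at h3
    refine (hP n).nfm _ _ h3 ⟨h1.1, ?_⟩ x h2
    obtain ⟨⟨D', hD'⟩, η, hη, h4⟩ := h1
    refine ⟨η + D' * bs β n, Γ.add_mem hη ?_, ?_⟩
    · rw [← nsmul_eq_mul]
      exact Γ.nsmul_mem (hbΓ n) _
    · rw [h4, hD']
      push_cast
      ring

end Pool.Agent.LU2T
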