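import Mathlib

/-!
# LU2, DER: derivations of fields of characteristic `p`

An element which is not a `p`-th power is moved by a derivation.
-/

set_option autoImplicit false

open Polynomial IntermediateField

namespace Pool.Agent.LU2T

variable {E : Type*} [Field E] {p : ℕ}

/-- A maximal subfield containing all `p`-th powers, not containing `f`. -/
theorem exists_maximal_subfield [Fact p.Prime] [CharP E p] {f : E} (hf : ∀ g, f ≠ g ^ p) :
    ∃ M : Subfield E, (∀ g : E, g ^ p ∈ M) ∧ f ∉ M ∧
      ∀ N : Subfield E, M ≤ N → f ∉ N → N = M := by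
  let S : Set (Subfield E) := {M | (∀ g : E, g ^ p ∈ M) ∧ f ∉ M}
  have h0 : (frobenius E p).fieldRange ∈ S := by
    refine ⟨fun g => ⟨g, rfl⟩, ?_⟩
    rintro ⟨g, hg⟩
    exact hf g hg.symm
  obtain ⟨M, hM, hmax⟩ := zorn_le_nonempty₀ S (by
    intro c hc hchain y hy
    refine ⟨sSup c, ⟨?_, ?_⟩, fun z hz => le_sSup hz⟩
    · intro g
      exact (le_sSup hy : y ≤ sSup c) ((hc hy).1 g)
    · intro hmem
      rw [Subfield.mem_sSup_of_directedOn ⟨y, hy⟩ hchain.directedOn] at hmem
      obtain ⟨s, hs, hfs⟩ := hmem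
      exact (hc hs).2 hfs) _ h0
  refine ⟨M, hmax.1.1, hmax.1.2, fun N hMN hN => ?_⟩
  exact le_antisymm (hmax.2 ⟨fun g => hMN (hmax.1.1 g), hN⟩ hMN) hMN

/-- **DER**. -/
theorem exists_derivation [Fact p.Prime] [CharP E p] {f : E} (hf : ∀ g, f ≠ g ^ p) :
    ∃ δ : Derivation ℤ E E, δ f = 1 := by
  have hp : p.Prime := Fact.out
  obtain ⟨M, hMp, hfM, hmax⟩ := exists_maximal_subfield (p := p) hf
  have : CharP M p := (M.subtype).charP M.subtype.injective p
  let a : M := ⟨f ^ p, hMp f⟩
  have hirr : Irreducible (X ^ p - C a : M[X]) := by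
    apply X_pow_sub_C_irreducible_of_prime hp
    intro b hb
    have h1 : (b : E) ^ p = f ^ p := congrArg Subtype.val hb
    have h2 : (b : E) = f := frobenius_inj E p h1
    exact hfM (h2 ▸ b.2)
  have hmin : ∀ g : E, aeval g (X ^ p - C (⟨g ^ p, hMp g⟩ : M) : M[X]) = 0 := by
    intro g
    rw [map_sub, map_pow, aeval_X, aeval_C]
    exact sub_self _
  have hint : ∀ g : E, IsIntegral M g := fun g =>
    ⟨_, monic_X_pow_sub_C _ hp.ne_zero, by rw [← aeval_def]; exact hmin g⟩
  have hf1 : minpoly M f = X ^ p - C a :=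
    (minpoly.eq_of_irreducible_of_monic hirr (hmin f) (monic_X_pow_sub_C _ hp.ne_zero)).symm
  have htop : ∀ g : E, g ∈ M⟮f⟯ := by
    intro g
    by_cases hg : g ∈ M
    · exact (M⟮f⟯).algebraMap_mem ⟨g, hg⟩
    have hfg : f ∈ M⟮g⟯ := by
      by_contra hcon
      have h1 : (M⟮g⟯).toSubfield = M := by
        apply hmax
        · intro x hx
          exact (M⟮g⟯).algebraMap_mem ⟨x, hx⟩
        · exact hcon
      apply hg
      have h2 : g ∈ (M⟮g⟯).toSubfield := mem_adjoin_simple_self M g
      rw [h1] at h2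
      exact h2
    have hle : M⟮f⟯ ≤ M⟮g⟯ := adjoin_simple_le_iff.mpr hfg
    have : FiniteDimensional M M⟮g⟯ := adjoin.finiteDimensional (hint g)
    have h3 : Module.finrank M M⟮g⟯ ≤ Module.finrank M M⟮f⟯ := by
      rw [adjoin.finrank (hint g), adjoin.finrank (hint f), hf1, natDegree_X_pow_sub_C]
      have h4 := natDegree_le_of_dvd (minpoly.dvd M g (hmin g))
        (monic_X_pow_sub_C _ hp.ne_zero).ne_zero
      rwa [natDegree_X_pow_sub_C] at h4
    have h5 : M⟮f⟯ = M⟮g⟯ := eq_of_le_of_finrank_le hle h3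
    rw [h5]
    exact mem_adjoin_simple_self M g
  have hsurj : Function.Surjective (aeval f : M[X] →ₐ[M] E) := by
    intro g
    have h1 := htop g
    rw [← mem_toSubalgebra, adjoin_simple_toSubalgebra_of_isAlgebraic (hint f).isAlgebraic,
      Algebra.adjoin_singleton_eq_range_aeval] at h1
    exact h1
  let d : Derivation ℤ M[X] M[X] := (Polynomial.derivative' (R := M)).restrictScalars ℤ
  have hd : ∀ P : M[X], aeval f P = 0 → aeval f (d P) = 0 := by
    intro P hP
    obtain ⟨Q, hQ⟩ := minpoly.dvd M f hP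
    have h1 : d P = minpoly M f * derivative Q := by
      change derivative P = _
      rw [hQ, derivative_mul, hf1]
      have : derivative (X ^ p - C a : M[X]) = 0 := by
        rw [derivative_sub, derivative_X_pow, derivative_C, CharP.cast_eq_zero, map_zero, zero_mul,
          sub_zero]
      rw [this, zero_mul, zero_add]
    rw [h1, map_mul, minpoly.aeval, zero_mul]
  refine ⟨Derivation.liftOfSurjective (f := ((aeval f : M[X] →ₐ[M] E) : M[X] →+* E).toIntAlgHom)
    hsurj hd, ?_⟩
  have h1 := Derivation.liftOfSurjective_apply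
    (f := ((aeval f : M[X] →ₐ[M] E) : M[X] →+* E).toIntAlgHom) hsurj hd (X : M[X])
  have h2 : ((aeval f : M[X] →ₐ[M] E) : M[X] →+* E).toIntAlgHom (X : M[X]) = f := aeval_X f
  rw [h2] at h1
  rw [h1]
  change aeval f (derivative (X : M[X])) = 1
  rw [derivative_X, map_one]

/-- A derivation vanishes on a subfield. -/
def derKer (δ : Derivation ℤ E E) : Subfield E where
  carrier := {x | δ x = 0}
  mul_mem' := by
    intro a b ha hb
    simp only [Set.mem_setOf_eq] at ha hb ⊢
    rw [Derivation.leibniz, ha, hb, smul_zero, smul_zero, add_zero]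
  one_mem' := δ.map_one_eq_zero
  add_mem' := by
    intro a b ha hb
    simp only [Set.mem_setOf_eq] at ha hb ⊢
    rw [map_add, ha, hb, add_zero]
  zero_mem' := map_zero δ
  neg_mem' := by
    intro a ha
    simp only [Set.mem_setOf_eq] at ha ⊢
    rw [map_neg, ha, neg_zero]
  inv_mem' := by
    intro a ha
    simp only [Set.mem_setOf_eq] at ha ⊢
    rw [Derivation.leibniz_inv, ha, smul_zero]

theorem mem_derKer {δ : Derivation ℤ E E} {x : E} : x ∈ derKer δ ↔ δ x = 0 := Iff.rfl

theorem der_pow_eq_zero [CharP E p] (δ : Derivation ℤ E E) (x : E) : δ (x ^ p) = 0 := by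
  rw [Derivation.leibniz_pow, ← Nat.cast_smul_eq_nsmul E p, CharP.cast_eq_zero, zero_smul]

/-- If the field is generated by finitely many elements and the `p`-th powers, finitely many
derivations have the `p`-th powers as common kernel. -/
theorem exists_finite_derivations [Fact p.Prime] [CharP E p] (T : Finset E)
    (hT : ∀ M : Subfield E, (∀ x : E, x ^ p ∈ M) → (∀ t ∈ T, t ∈ M) → M = ⊤) :
    ∃ (n : ℕ) (δ : Fin n → Derivation ℤ E E), ∀ x, (∀ i, δ i x = 0) → ∃ y, x = y ^ p := by
  let ev : Derivation ℤ E E →ₗ[E] (T → E) :=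
    { toFun := fun δ t => δ t
      map_add' := fun _ _ => rfl
      map_smul' := fun _ _ => rfl }
  have hinj : Function.Injective ev := by
    rw [← LinearMap.ker_eq_bot, LinearMap.ker_eq_bot']
    intro δ hδ
    have h1 : derKer δ = ⊤ := hT _ (fun x => der_pow_eq_zero (p := p) δ x)
      (fun t ht => congrFun hδ ⟨t, ht⟩)
    ext x
    have h2 : x ∈ derKer δ := h1 ▸ Subfield.mem_top x
    exact h2
  have : FiniteDimensional E (Derivation ℤ E E) := FiniteDimensional.of_injective ev hinj
  let b := Module.finBasis E (Derivation ℤ E E)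
  refine ⟨_, b, fun x hx => ?_⟩
  by_contra hcon
  push Not at hcon
  obtain ⟨δ, hδ⟩ := exists_derivation (p := p) hcon
  have h1 : δ x = 0 := by
    rw [← b.sum_repr δ]
    have h2 : (∑ i, b.repr δ i • b i : Derivation ℤ E E) x = ∑ i, (b.repr δ i • b i) x := by
      let φ : Derivation ℤ E E →+ E :=
        { toFun := fun δ => δ x
          map_zero' := rfl
          map_add' := fun _ _ => rfl }
      exact map_sum φ _ _
    rw [h2]
    apply Finset.sum_eq_zero
    intro i _
    rw [Derivation.smul_apply, hx i, smul_zero]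
  rw [h1] at hδ
  exact zero_ne_one hδ

end Pool.Agent.LU2T
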