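import Pool.Agent.Lib.LU2_h90.OV
import Pool.Agent.Lib.LU2_h90.Der
import Pool.Agent.Lib.LU1_h15.Lattice

/-!
# LU2, PI2: the leading part after a step

`I` is the set of exponents `l` of the monomials `c_l x^(τ - l β) Y^l` of lowest value `τ`.  Their
sum becomes `χ'(τ)` times a Laurent polynomial in `w`, which is written `r ^ p + U h ^ j`.
-/

set_option autoImplicit false

open Polynomial

namespace Pool.Agent.LU2T

open Pool.Agent.LU1 (LatData)

universe u

variable {F : Type u} [Field F]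

/-- Range of exponents. -/
theorem range_bound {I : Finset ℕ} {e : ℕ → ℕ} {q : ℕ} (hq : 0 < q)
    (he : ∀ l ∈ I, ∀ l' ∈ I, (l : ℤ) - l' = q * ((e l : ℤ) - e l')) {h : F[X]}
    (hi : Irreducible h) (hX : ¬ h ∣ X) (b : ℕ → F) {l₀ : ℕ} (hl₀ : l₀ ∈ I) (hb : b l₀ ≠ 0) :
    (∑ l ∈ I, C (b l) * X ^ e l ≠ 0) ∧ ∃ lo ∈ I, ∃ hi' ∈ I, b lo ≠ 0 ∧ b hi' ≠ 0 ∧
      ∀ j : ℕ, h ^ j ∣ ∑ l ∈ I, C (b l) * X ^ e l → q * h.natDegree * j + lo ≤ hi' := by
  classical
  have hqz : (0 : ℤ) < q := by exact_mod_cast hq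
  have hinj : ∀ l ∈ I, ∀ l' ∈ I, e l = e l' → l = l' := by
    intro l hl l' hl' h1
    have h2 := he l hl l' hl'
    rw [h1, sub_self, mul_zero] at h2
    omega
  set S := ∑ l ∈ I, C (b l) * X ^ e l with hS
  have hcoeff : ∀ l ∈ I, S.coeff (e l) = b l := by
    intro l hl
    rw [hS, finsetSum_coeff, Finset.sum_eq_single l]
    · rw [coeff_C_mul, coeff_X_pow, if_pos rfl, mul_one]
    · intro l' hl' hne
      rw [coeff_C_mul, coeff_X_pow, if_neg, mul_zero]
      intro h1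
      exact hne (hinj l' hl' l hl h1.symm)
    · intro h1
      exact absurd hl h1
  have hsupp : ∀ n, S.coeff n ≠ 0 → ∃ l ∈ I, b l ≠ 0 ∧ e l = n := by
    intro n hn
    rw [hS, finsetSum_coeff] at hn
    obtain ⟨l, hl, h1⟩ := Finset.exists_ne_zero_of_sum_ne_zero hn
    rw [coeff_C_mul, coeff_X_pow] at h1
    refine ⟨l, hl, left_ne_zero_of_mul h1, ?_⟩
    by_contra h2
    apply h1
    rw [if_neg (fun h => h2 h.symm), mul_zero]
  have hS0 : S ≠ 0 := by
    intro h0
    apply hb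
    rw [← hcoeff l₀ hl₀, h0, coeff_zero]
  obtain ⟨hi', hhi', hbhi, hehi⟩ := hsupp S.natDegree (by
    rw [coeff_natDegree]
    exact leadingCoeff_ne_zero.mpr hS0)
  obtain ⟨lo, hlo, hblo, helo⟩ := hsupp S.natTrailingDegree (by
    exact trailingCoeff_nonzero_iff_nonzero.mpr hS0)
  refine ⟨hS0, lo, hlo, hi', hhi', hblo, hbhi, fun j hj => ?_⟩
  have h1 := mul_natDegree_le_range hi hX hS0 hj
  rw [← hehi, ← helo] at h1
  have h2 := he hi' hhi' lo hlo
  have h3 : ((j * h.natDegree + e lo : ℕ) : ℤ) ≤ e hi' := by exact_mod_cast h1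
  have h4 : (q : ℤ) * (j * h.natDegree) ≤ q * ((e hi' : ℤ) - e lo) := by
    apply mul_le_mul_of_nonneg_left _ hqz.le
    push_cast at h3
    linarith
  have h5 : ((q * h.natDegree * j + lo : ℕ) : ℤ) ≤ (hi' : ℕ) := by
    push_cast
    linarith
  exact_mod_cast h5

theorem arith1 {qm j lo hi M : ℕ} (hqm : 0 < qm) (h : qm * (j - 1) + lo ≤ hi) (hlo : 1 ≤ lo)
    (hM : hi ≤ M) : j ≤ max M 1 ∧ (2 ≤ qm → j < max M 2) := by
  have h1 : 1 * (j - 1) ≤ qm * (j - 1) := Nat.mul_le_mul_right _ hqm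
  refine ⟨by omega, fun h2 => ?_⟩
  have h3 : 2 * (j - 1) ≤ qm * (j - 1) := Nat.mul_le_mul_right _ h2
  omega

theorem arith2 {qm j lo hi M : ℕ} (hqm : 2 ≤ qm) (h : qm * (j - 1) + lo ≤ hi)
    (hM : hi ≤ M) (hex : ¬ (hi = 2 ∧ lo = 0 ∧ j = 2 ∧ qm = 2)) :
    j ≤ max M 1 ∧ (2 ≤ qm → j < max M 2) := by
  have h3 : 2 * (j - 1) ≤ qm * (j - 1) := Nat.mul_le_mul_right _ hqm
  have h4 : j = 2 → hi = 2 → lo = 0 ∧ qm = 2 := by
    rintro rfl rfl
    simp at h
    omega
  refine ⟨by omega, fun h2 => ?_⟩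
  by_cases h5 : j = 2 ∧ hi = 2
  · obtain ⟨h6, h7⟩ := h4 h5.1 h5.2
    exact absurd ⟨h5.2, h6, h5.1, h7⟩ hex
  · omega

/-- **LEAD**. -/
theorem lead (p : ℕ) [hp : Fact p.Prime] [CharP F p] {Γ : AddSubgroup ℝ} {β : ℝ} {q : ℕ}
    {s : ℝ → ℤ → ℤ} (hL : LatData Γ β q s) {h : F[X]} (hm : h.Monic) (hi : Irreducible h)
    (hX : ¬ h ∣ X) (I : Finset ℕ) (hI : I.Nonempty) (τ : ℝ) (c : ℕ → F)
    (hΓ : ∀ l ∈ I, τ - l * β ∈ Γ) (hc : ∀ l ∈ I, c l ≠ 0)
    (hvis : ∀ l ∈ I, p ∣ l → (∃ δ ∈ Γ, τ - l * β = p * δ) → ∀ x, c l ≠ x ^ p) (K : ℕ)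
    (hK : ∀ l ∈ I, 0 ≤ s (τ - l * β) l + p * K) :
    ∃ (r U : F[X]) (j : ℕ),
      (∑ l ∈ I, C (c l) * X ^ (s (τ - l * β) l + p * K).toNat) - r ^ p = U * h ^ j ∧ ¬ h ∣ U ∧
      ((¬ (∃ δ ∈ Γ ⊔ AddSubgroup.zmultiples β, τ = p * δ) ∧ r = 0) ∨
        ((∃ δ ∈ Γ ⊔ AddSubgroup.zmultiples β, τ = p * δ) ∧
          (¬ p ∣ j ∨ ∀ t : F[X], ¬ h ∣ U - t ^ p))) ∧
      j ≤ max (I.max' hI) 1 ∧ (2 ≤ q * h.natDegree → j < max (I.max' hI) 2) := by
  classical
  have hpp := hp.out
  have hq := hL.q_pos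
  have hqz : (0 : ℤ) < q := by exact_mod_cast hq
  have hmd : 0 < h.natDegree := hi.natDegree_pos
  have hqm : 0 < q * h.natDegree := Nat.mul_pos hq hmd
  set e : ℕ → ℕ := fun l => (s (τ - l * β) l + p * K).toNat with he_def
  have he : ∀ l ∈ I, (e l : ℤ) = s (τ - l * β) l + p * K := fun l hl =>
    Int.toNat_of_nonneg (hK l hl)
  have hsame : ∀ l ∈ I, ∀ l' ∈ I, (l : ℤ) - l' = q * ((e l : ℤ) - e l') := by
    intro l hl l' hl'
    have h1 := hL.same (hΓ l hl) (hΓ l' hl') (l := l) (m := l') (by push_cast; ring)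
    rw [h1, he l hl, he l' hl']
    ring
  set a : F[X] := ∑ l ∈ I, C (c l) * X ^ e l with ha
  have hmax : ∀ l ∈ I, l ≤ I.max' hI := fun l hl => I.le_max' l hl
  -- divisibility of the exponents
  have hpe : ∀ l ∈ I, (p ∣ e l ↔ (p : ℤ) ∣ s (τ - l * β) l) := by
    intro l hl
    rw [← Int.natCast_dvd_natCast, he l hl]
    exact (Int.dvd_add_left (Dvd.intro _ rfl))
  by_cases hτ : ∃ δ ∈ Γ ⊔ AddSubgroup.zmultiples β, τ = p * δ
  swap
  · -- the value is not divisible by `p`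
    obtain ⟨l₀, hl₀⟩ := hI
    obtain ⟨ha0, lo, hlo, hi', hhi', -, -, h1⟩ := range_bound hq hsame hi hX c hl₀ (hc l₀ hl₀)
    have hfin : FiniteMultiplicity h a :=
      finiteMultiplicity_of_degree_pos_of_monic (natDegree_pos_iff_degree_pos.mp hmd) hm ha0
    obtain ⟨U, hU, hUn⟩ := hfin.exists_eq_pow_mul_and_not_dvd
    set j := multiplicity h a
    have h1 := h1 j (by rw [← ha, hU]; exact Dvd.intro _ rfl)
    have h2 := hmax hi' hhi'
    refine ⟨0, U, j, ?_, hUn, Or.inl ⟨hτ, rfl⟩, ?_, fun h3 => ?_⟩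
    · rw [zero_pow hpp.ne_zero, sub_zero, mul_comm U]
      exact hU
    · have h3 : 1 * j ≤ q * h.natDegree * j := Nat.mul_le_mul_right _ hqm
      omega
    · have h4 : 2 * j ≤ q * h.natDegree * j := Nat.mul_le_mul_right _ h3
      omega
  -- the value is divisible by `p`
  by_cases hB : ∃ l ∈ I, ¬ (p : ℤ) ∣ s (τ - l * β) l
  · obtain ⟨l₀, hl₀, hs₀⟩ := hB
    have hXd : X * derivative a = ∑ l ∈ I, C ((e l : F) * c l) * X ^ e l := by
      rw [ha, derivative_sum, Finset.mul_sum]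
      refine Finset.sum_congr rfl fun l _ => ?_
      rw [derivative_C_mul_X_pow, mul_comm (c l)]
      rcases Nat.eq_zero_or_pos (e l) with h0 | h0
      · rw [h0]
        simp
      · obtain ⟨n, hn⟩ : ∃ n, e l = n + 1 := ⟨e l - 1, by omega⟩
        rw [hn, Nat.add_sub_cancel, pow_succ]
        ring
    have hb0 : ((e l₀ : F) * c l₀) ≠ 0 := by
      apply mul_ne_zero _ (hc l₀ hl₀)
      rw [Ne, CharP.cast_eq_zero_iff F p, hpe l₀ hl₀]
      exact hs₀
    obtain ⟨hS0, lo, hlo, hi', hhi', hblo, hbhi, h7'⟩ := range_bound hq hsame hi hX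
      (fun l => (e l : F) * c l) hl₀ hb0
    rw [← hXd] at hS0 h7'
    have hda : (dX : Derivation ℤ F[X] F[X]) a ≠ 0 := by
      rw [dX_apply]
      exact right_ne_zero_of_mul hS0
    obtain ⟨r, U, j, h1, h2, h3, h4⟩ := ov (p := p) hm hi a dX hda
    refine ⟨r, U, j, h1, h2, Or.inr ⟨hτ, h3⟩, ?_⟩
    obtain ⟨h5, h6⟩ := h4 dX
    rw [dX_apply] at h5 h6
    have h7 := h7' (j - 1) (h5.mul_left _)
    rcases Nat.eq_zero_or_pos lo with h0 | h0
    · -- the monomial `x^τ`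
      subst h0
      have hslo : ¬ (p : ℤ) ∣ s τ 0 := by
        have h8 : (e 0 : F) ≠ 0 := left_ne_zero_of_mul hblo
        rw [Ne, CharP.cast_eq_zero_iff F p, hpe 0 hlo] at h8
        simpa using h8
      have hτΓ : τ ∈ Γ := by simpa using hΓ 0 hlo
      have hnot : ¬ ∃ δ ∈ Γ, τ = p * δ := by
        rintro ⟨δ, hδ, h8⟩
        apply hslo
        have h9 := hL.s_zsmul (p : ℤ) hδ 0
        rw [mul_zero, Int.cast_natCast, ← h8] at h9
        exact ⟨_, h9⟩
      -- so `q ≥ 2`, and `q = 2` only for `p = 2`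
      obtain ⟨δ, hδ, hτδ⟩ := hτ
      obtain ⟨γ, hγ, z, hz, hsum⟩ := AddSubgroup.mem_sup.1 hδ
      obtain ⟨n, hn⟩ := AddSubgroup.mem_zmultiples_iff.1 hz
      rw [zsmul_eq_mul] at hn
      have hnΓ : ∀ n' : ℤ, (q : ℤ) ∣ n' → (n' : ℝ) * β ∈ Γ := by
        rintro _ ⟨t, rfl⟩
        have : (((q : ℤ) * t : ℤ) : ℝ) * β = t • ((q : ℝ) * β) := by
          rw [zsmul_eq_mul]; push_cast; ring
        rw [this]
        exact Γ.zsmul_mem hL.q_mem _
      have hqn : ¬ (q : ℤ) ∣ n := by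
        intro h8
        exact hnot ⟨δ, by rw [← hsum, ← hn]; exact Γ.add_mem hγ (hnΓ n h8), hτδ⟩
      have hqpn : (q : ℤ) ∣ p * n := by
        apply Pool.Agent.LU1.lat_dvd hL.q_pos hL.q_mem hL.q_min
        have h8 : (((p : ℤ) * n : ℤ) : ℝ) * β = τ - p • γ := by
          rw [hτδ, ← hsum, ← hn, nsmul_eq_mul]
          push_cast
          ring
        rw [h8]
        exact Γ.sub_mem hτΓ (Γ.nsmul_mem hγ _)
      have hq2 : 2 ≤ q := by
        by_contra h8
        have h9 : q = 1 := by omega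
        apply hqn
        rw [h9]
        exact one_dvd _
      have hqm2 : 2 ≤ q * h.natDegree := le_trans hq2 (Nat.le_mul_of_pos_right q hmd)
      apply arith2 hqm2 h7 (hmax hi' hhi')
      rintro ⟨h8, -, h10, h11⟩
      have hq2' : q = 2 := by
        have h12 : q * 1 ≤ q * h.natDegree := Nat.mul_le_mul_left _ hmd
        omega
      by_cases hp2 : p = 2
      · -- `p = 2 ∣ j`
        have h12 : p ∣ j := by rw [hp2, h10]
        have h13 := h7' j ((h6 h12).mul_left _)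
        rw [h10, h11, h8] at h13
        omega
      · exfalso
        apply hqn
        have h12 : (2 : ℤ) ∣ p * n := by rw [hq2'] at hqpn; exact_mod_cast hqpn
        have h13 : (q : ℤ) = 2 := by rw [hq2']; rfl
        rw [h13]
        rcases (Int.prime_two.dvd_mul).1 h12 with h14 | h14
        · exfalso
          have h15 : 2 ∣ p := by exact_mod_cast h14
          exact hp2 (((Nat.prime_dvd_prime_iff_eq Nat.prime_two hpp).1 h15).symm)
        · exact h14
    · exact arith1 hqm h7 h0 (hmax hi' hhi')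
  · push Not at hB
    -- all monomials are `p`-th powers up to the coefficient
    have hI' : ∀ l ∈ I, p ∣ l ∧ ∀ x, c l ≠ x ^ p := by
      intro l hl
      have h1 := (hL.vis p hpp (hΓ l hl) (l : ℤ)).2 ⟨hB l hl, by
        obtain ⟨δ, hδ, h2⟩ := hτ
        exact ⟨δ, hδ, by rw [← h2]; push_cast; ring⟩⟩
      have h2 : p ∣ l := by exact_mod_cast h1.1
      exact ⟨h2, hvis l hl h2 h1.2⟩
    have hpe' : ∀ l ∈ I, p ∣ e l := fun l hl => (hpe l hl).2 (hB l hl)
    obtain ⟨l₀, hl₀⟩ := id hI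
    obtain ⟨d, hd⟩ := exists_derivation (p := p) (hI' l₀ hl₀).2
    have hDa : cD d a = ∑ l ∈ I, C (d (c l)) * X ^ e l := by
      ext n
      rw [coeff_cD, ha, finsetSum_coeff, map_sum, finsetSum_coeff]
      refine Finset.sum_congr rfl fun l _ => ?_
      rw [coeff_C_mul, coeff_C_mul, coeff_X_pow]
      split_ifs
      · rw [mul_one, mul_one]
      · rw [mul_zero, mul_zero, map_zero]
    have hb0 : d (c l₀) ≠ 0 := by rw [hd]; exact one_ne_zero
    obtain ⟨hS0, lo, hlo, hi', hhi', -, -, h7'⟩ := range_bound hq hsame hi hX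
      (fun l => d (c l)) hl₀ hb0
    rw [← hDa] at hS0 h7'
    obtain ⟨r, U, j, h1, h2, h3, h4⟩ := ov (p := p) hm hi a (cD d) hS0
    refine ⟨r, U, j, h1, h2, Or.inr ⟨hτ, h3⟩, ?_⟩
    obtain ⟨h5, h6⟩ := h4 (cD d)
    have h7 := h7' (j - 1) h5
    by_cases hqm2 : 2 ≤ q * h.natDegree
    · apply arith2 hqm2 h7 (hmax hi' hhi')
      rintro ⟨h8, h9, h10, h11⟩
      have hp2 : p ∣ 2 := by
        have := (hI' hi' hhi').1
        rwa [h8] at this
      have h12 := h7' j (h6 (by rw [h10]; exact hp2))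
      rw [h10, h11, h8] at h12
      omega
    · -- `h` is linear, so `p ∣ j`
      have hd1 : h.natDegree = 1 := by
        have : 1 * h.natDegree ≤ q * h.natDegree := Nat.mul_le_mul_right _ hq
        omega
      have hh' : derivative h = 1 := by
        rw [eq_X_add_C_of_natDegree_le_one hd1.le]
        have h8 : h.coeff 1 = 1 := by
          have h9 := hm.coeff_natDegree
          rwa [hd1] at h9
        rw [h8]
        simp
      have ha' : derivative a = 0 := by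
        rw [ha, derivative_sum]
        refine Finset.sum_eq_zero fun l hl => ?_
        rw [derivative_C_mul_X_pow, (CharP.cast_eq_zero_iff F p (e l)).2 (hpe' l hl)]
        simp
      have hpj : p ∣ j := by
        by_contra hpj
        have hj0 : j ≠ 0 := by
          rintro rfl
          exact hpj (dvd_zero p)
        obtain ⟨i, hji⟩ : ∃ i, j = i + 1 := ⟨j - 1, by omega⟩
        have h8 : derivative (U * h ^ j) = 0 := by
          rw [← h1, derivative_sub, ha']
          have := der_pow_p (p := p) dX r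
          rw [dX_apply] at this
          rw [this, sub_zero]
        rw [derivative_mul, derivative_pow, hh', mul_one, hji, Nat.add_sub_cancel, pow_succ] at h8
        have h9 : h ^ i * (derivative U * h + C ((i + 1 : ℕ) : F) * U) = 0 := by
          rw [← h8]
          ring
        have h10 := (mul_eq_zero.mp h9).resolve_left (pow_ne_zero _ hi.ne_zero)
        apply h2
        have h11 : IsUnit (C ((i + 1 : ℕ) : F)) := by
          apply IsUnit.map
          rw [isUnit_iff_ne_zero, Ne, CharP.cast_eq_zero_iff F p, ← hji]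
          exact hpj
        rw [← h11.dvd_mul_left]
        exact ⟨-derivative U, by linear_combination h10⟩
      have h13 := h7' j (h6 hpj)
      have h14 : 1 * j ≤ q * h.natDegree * j := Nat.mul_le_mul_right _ hqm
      have h15 := hmax hi' hhi'
      exact ⟨by omega, fun h => absurd h hqm2⟩

end Pool.Agent.LU2T
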