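import Pool.Agent.Lib.LU2_h90.Vis

/-!
# LU2: the visible part after a step without growth
-/

set_option autoImplicit false

open Polynomial

namespace Pool.Agent.LU2T

open Pool.Agent.LU1 (Lau mon cf co SuppIn IsLD All LatData tpoly tpoly_one tpoly_ge)
open Pool.Agent.LU1.R1 (co_zero co_add co_sum co_ext co_monomial)

universe u

variable {F : Type u} [Field F]

theorem coeff_pow_p (p : ℕ) [hp : Fact p.Prime] [CharP F p] (R : F[X]) (m : ℕ) :
    (R ^ p).coeff m = if p ∣ m then (R.coeff (m / p)) ^ p else 0 := by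
  rw [← map_frobenius_expand, coeff_map, coeff_expand hp.out.pos]
  split_ifs
  · rfl
  · rw [map_zero]

/-- The lattice data of a step without growth. -/
theorem latData_one {Γ : AddSubgroup ℝ} {β : ℝ} (hβ : 0 < β) (hβΓ : β ∈ Γ) :
    LatData Γ β 1 (fun _ l => l) where
  β_pos := hβ
  q_pos := one_pos
  q_mem := by rw [Nat.cast_one, one_mul]; exact hβΓ
  q_min := fun m hm _ => hm
  s_add := fun _ _ _ _ _ _ => rfl
  s_one := rfl

theorem sup_eq {Γ : AddSubgroup ℝ} {β : ℝ} (hβΓ : β ∈ Γ) :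
    Γ ⊔ AddSubgroup.zmultiples β = Γ := by
  rw [sup_eq_left, AddSubgroup.zmultiples_le]
  exact hβΓ

/-- **No growth**: the visible part after the substitution `Y ↦ x^β (c + Y)`. -/
theorem poly_step (p : ℕ) [hp : Fact p.Prime] [CharP F p] (O : Om F p) {Γ : AddSubgroup ℝ} {β : ℝ}
    (hβ : 0 < β) (hβΓ : β ∈ Γ) {c : F} (hc : c ≠ 0) {P : (Lau F)[X]} (hP : SuppIn Γ P)
    (hN : NFm p Γ P) {κ : ℝ} {D : ℕ} (hLD : IsLD All P 0 κ D) {V : (Lau F)[X]}
    (hV : VisPart O Γ (P.comp (C (mon β 1) * (C (mon 0 c) + X))) V) :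
    ∃ τ j, IsLD All V 0 τ j ∧ (∀ γ l, co P γ l ≠ 0 → τ ≤ γ + l * β) ∧ τ ≤ κ + D * β ∧
      j ≤ max D 1 ∧ (2 ≤ D → j = D → τ = κ + D * β) := by
  classical
  have hpp := hp.out
  obtain ⟨h1, -, h3, -⟩ := hLD
  simp only [mul_zero, add_zero, sub_zero] at h1 h3
  obtain ⟨τ, L, t1, -, t3, -⟩ := Pool.Agent.LU1.exists_IsLD All P β ⟨κ, D, h3, trivial⟩
  have t1' : ∀ γ l, co P γ l ≠ 0 → τ ≤ γ + l * β := fun γ l h => t1 γ l h trivial
  have hτ : τ ≤ κ + D * β := t1' κ D h3
  set I : Finset ℕ := P.support.filter fun l : ℕ => co P (τ - l * β) l ≠ 0 with hI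
  have hmem : ∀ l : ℕ, l ∈ I ↔ co P (τ - l * β) l ≠ 0 := by
    intro l
    rw [hI, Finset.mem_filter]
    exact ⟨fun h => h.2, fun h => ⟨Pool.Agent.LU1.DD.mem_support_of_co h, h⟩⟩
  have hIne : I.Nonempty := ⟨L, (hmem L).2 t3⟩
  have hcX : ¬ (X - C c : F[X]) ∣ X := by
    rw [dvd_iff_isRoot, IsRoot.def, eval_X]
    exact hc
  obtain ⟨r, U, j, e1, e2, e3, e4, -⟩ := lead p (latData_one hβ hβΓ) (monic_X_sub_C c)
    (irreducible_X_sub_C c) hcX I hIne τ (fun l => co P (τ - l * β) l)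
    (fun l hl => hP _ _ ((hmem l).1 hl)) (fun l hl => (hmem l).1 hl)
    (fun l hl h4 h5 => hN _ _ ((hmem l).1 hl) ⟨h4, h5⟩) 0
    (fun l _ => by simp)
  rw [sup_eq hβΓ] at e3
  set a : F[X] := ∑ l ∈ I, C (co P (τ - l * β) l) * X ^ l with ha
  have ha' : (∑ l ∈ I, C (co P (τ - l * β) l) * X ^
      (((fun (_ : ℝ) (l : ℤ) => l) (τ - l * β) (l : ℤ) + (p : ℤ) * ((0 : ℕ) : ℤ)).toNat) : F[X])
      = a := by
    rw [ha]
    refine Finset.sum_congr rfl fun l _ => ?_
    simp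
  rw [ha'] at e1
  -- the level `τ` of the new polynomial
  have htp : P.comp (C (mon β 1) * (C (mon 0 c) + X)) = tpoly β c (fun _ l => l) P :=
    (tpoly_one β c (fun _ l => l) P (fun _ _ _ => rfl)).symm
  rw [htp] at hV
  have hco : ∀ m, co (tpoly β c (fun _ l => l) P) τ m = (taylor c a).coeff m := by
    intro m
    rw [Pool.Agent.LU1.DD.co_tpoly, ha, map_sum, finsetSum_coeff, hI, Finset.sum_filter]
    refine Finset.sum_congr rfl fun l _ => ?_
    by_cases h0 : co P (τ - l * β) l = 0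
    · rw [h0, zero_mul, if_neg (by simp)]
    · rw [if_pos h0, taylor_mul, taylor_C, taylor_pow, taylor_X, coeff_C_mul, Int.toNat_natCast,
        add_comm (C c) X]
  have hta : taylor c a = (taylor c r) ^ p + taylor c U * X ^ j := by
    have h5 := congrArg (taylor c) e1
    rw [map_sub, taylor_pow, taylor_mul, taylor_pow, map_sub, taylor_X, taylor_C,
      add_sub_cancel_right] at h5
    rw [← h5]
    ring
  have hU0 : (taylor c U).coeff 0 ≠ 0 := by
    rw [taylor_coeff_zero]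
    intro h5
    exact e2 (dvd_iff_isRoot.2 h5)
  have hge : ∀ γ l, co V γ l ≠ 0 → τ ≤ γ := fun γ l h5 =>
    tpoly_ge (c := c) (s := fun _ l => l) t1' γ l (hV.ne h5)
  -- the level `τ` of the visible part
  have hVτ : (∀ m < j, co V τ m = 0) ∧ co V τ j ≠ 0 := by
    rcases e3 with ⟨h5, h6⟩ | ⟨h5, h6⟩
    · have hnv : ∀ m, ¬ Inv p Γ τ m := fun m h7 => h5 h7.2
      have h7 : ∀ m, co V τ m = (taylor c U * X ^ j).coeff m := by
        intro m
        rw [(hV τ m).2 (hnv m), hco, hta, h6, map_zero, zero_pow hpp.ne_zero, zero_add]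
      refine ⟨fun m hm => ?_, ?_⟩
      · rw [h7, coeff_mul_X_pow', if_neg (by omega)]
      · rw [h7, coeff_mul_X_pow', if_pos le_rfl, Nat.sub_self]
        exact hU0
    · have h7 : ∀ m, ¬ p ∣ m → co V τ m = (taylor c U * X ^ j).coeff m := by
        intro m hm
        rw [(hV τ m).2 (fun h8 => hm h8.1), hco, hta, coeff_add, coeff_pow_p, if_neg hm, zero_add]
      have h8 : ∀ m, p ∣ m → co V τ m = O.ω ((taylor c U * X ^ j).coeff m) := by
        intro m hm
        rw [(hV τ m).1 ⟨hm, h5⟩, hco, hta, coeff_add, coeff_pow_p, if_pos hm, map_add, O.kill,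
          zero_add]
      refine ⟨fun m hm => ?_, ?_⟩
      · by_cases hpm : p ∣ m
        · rw [h8 m hpm, coeff_mul_X_pow', if_neg (by omega), map_zero]
        · rw [h7 m hpm, coeff_mul_X_pow', if_neg (by omega)]
      · by_cases hpj : p ∣ j
        · rw [h8 j hpj, coeff_mul_X_pow', if_pos le_rfl, Nat.sub_self]
          intro h9
          obtain ⟨x, hx⟩ := O.eq_zero h9
          refine (h6.resolve_left (fun h => h hpj)) (C x) ?_
          rw [dvd_iff_isRoot, IsRoot.def, eval_sub, eval_pow, eval_C, ← taylor_coeff_zero, hx,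
            sub_self]
        · rw [h7 j hpj, coeff_mul_X_pow', if_pos le_rfl, Nat.sub_self]
          exact hU0
  have hmaxD : I.max' hIne ≤ D := by
    have h5 := I.max'_mem hIne
    have h6 := h1 _ _ ((hmem _).1 h5) trivial
    by_contra hcon
    have h7 : (D : ℝ) + 1 ≤ (I.max' hIne : ℕ) := by exact_mod_cast (by omega : D + 1 ≤ I.max' hIne)
    nlinarith
  refine ⟨τ, j, ⟨fun γ l h5 _ => ?_, fun γ l h5 _ hl => ?_, ?_, trivial⟩, t1', hτ, ?_, ?_⟩
  · rw [mul_zero, add_zero]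
    exact hge γ l h5
  · rw [mul_zero, add_zero]
    refine lt_of_le_of_ne (hge γ l h5) ?_
    rintro rfl
    exact h5 (hVτ.1 l hl)
  · rw [mul_zero, sub_zero]
    exact hVτ.2
  · omega
  · intro hD2 hjD
    have h5 : I.max' hIne = D := by omega
    have h6 := h1 _ _ ((hmem _).1 (I.max'_mem hIne)) trivial
    rw [h5] at h6
    linarith

end Pool.Agent.LU2T
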