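import Mathlib

/-!
# LU2, PI1: one variable

`C` a field of characteristic `p`, `h` monic irreducible over `C`.  Every polynomial `a` that is
moved by some derivation can be written `a = r ^ p + U h ^ j` with `h ∤ U` and either `p ∤ j` or
`U` not congruent to a `p`-th power modulo `h`; the order `j` is bounded by derivations.
-/

set_option autoImplicit false

open Polynomial

namespace Pool.Agent.LU2T

variable {F : Type*} [Field F] {p : ℕ}

/-- A derivation of the coefficients. -/
noncomputable def cD (d : Derivation ℤ F F) : Derivation ℤ F[X] F[X] :=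
  PolynomialModule.equivPolynomialSelf.compDer d.mapCoeffs

theorem coeff_cD (d : Derivation ℤ F F) (a : F[X]) (i : ℕ) : (cD d a).coeff i = d (a.coeff i) :=
  rfl

/-- The derivative as a derivation over the integers. -/
noncomputable def dX : Derivation ℤ F[X] F[X] :=
  (Polynomial.derivative' (R := F)).restrictScalars ℤ

theorem dX_apply (a : F[X]) : (dX : Derivation ℤ F[X] F[X]) a = derivative a := rfl

theorem der_pow_p [CharP F p] (D : Derivation ℤ F[X] F[X]) (r : F[X]) : D (r ^ p) = 0 := by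
  rw [Derivation.leibniz_pow, ← smul_assoc]
  have : (p : ℕ) • (r ^ (p - 1)) = 0 := by
    rw [nsmul_eq_mul, CharP.cast_eq_zero, zero_mul]
  rw [this, zero_smul]

theorem der_pow_dvd (D : Derivation ℤ F[X] F[X]) (U h : F[X]) (j : ℕ) :
    h ^ (j - 1) ∣ D (U * h ^ j) := by
  rw [Derivation.leibniz, Derivation.leibniz_pow, smul_eq_mul, smul_eq_mul]
  apply dvd_add
  · apply Dvd.dvd.mul_left
    apply dvd_nsmul_of_dvd
    exact Dvd.intro _ rfl
  · exact (pow_dvd_pow h (Nat.sub_le j 1)).mul_right _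

theorem der_pow_dvd' [CharP F p] (D : Derivation ℤ F[X] F[X]) (U h : F[X]) {j : ℕ}
    (hj : p ∣ j) : h ^ j ∣ D (U * h ^ j) := by
  obtain ⟨i, rfl⟩ := hj
  rw [Derivation.leibniz, mul_comm p i, pow_mul h i p, der_pow_p, smul_zero, zero_add]
  exact Dvd.intro _ rfl

/-- **OV**. -/
theorem ov [Fact p.Prime] [CharP F p] {h : F[X]} (hm : h.Monic) (hi : Irreducible h) (a : F[X])
    (D : Derivation ℤ F[X] F[X]) (hD : D a ≠ 0) :
    ∃ (r U : F[X]) (j : ℕ), a - r ^ p = U * h ^ j ∧ ¬ h ∣ U ∧
      (¬ p ∣ j ∨ ∀ t : F[X], ¬ h ∣ U - t ^ p) ∧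
      (∀ D' : Derivation ℤ F[X] F[X], h ^ (j - 1) ∣ D' a ∧ (p ∣ j → h ^ j ∣ D' a)) := by
  have hdeg : 0 < h.natDegree := hi.natDegree_pos
  by_contra hcon
  have key : ∀ n : ℕ, ∃ r : F[X], h ^ n ∣ a - r ^ p := by
    intro n
    induction n with
    | zero => exact ⟨0, by rw [pow_zero]; exact one_dvd _⟩
    | succ n ih =>
      obtain ⟨r, hr⟩ := ih
      have h0 : a - r ^ p ≠ 0 := by
        intro h0
        apply hD
        have h1 := der_pow_p (p := p) D r
        rw [← sub_eq_zero.mp h0] at h1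
        exact h1
      have hfin : FiniteMultiplicity h (a - r ^ p) :=
        finiteMultiplicity_of_degree_pos_of_monic (natDegree_pos_iff_degree_pos.mp hdeg) hm h0
      obtain ⟨U, hU, hUn⟩ := hfin.exists_eq_pow_mul_and_not_dvd
      set j := multiplicity h (a - r ^ p) with hj
      have hnj : n ≤ j := hfin.le_multiplicity_of_pow_dvd hr
      have hU' : a - r ^ p = U * h ^ j := by rw [hU, mul_comm]
      have hder : ∀ D' : Derivation ℤ F[X] F[X],
          h ^ (j - 1) ∣ D' a ∧ (p ∣ j → h ^ j ∣ D' a) := by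
        intro D'
        have h2 : D' a = D' (U * h ^ j) := by
          rw [← hU', map_sub, der_pow_p (p := p), sub_zero]
        rw [h2]
        exact ⟨der_pow_dvd D' U h j, fun hp => der_pow_dvd' (p := p) D' U h hp⟩
      have h3 : ¬ (¬ p ∣ j ∨ ∀ t : F[X], ¬ h ∣ U - t ^ p) :=
        fun h4 => hcon ⟨r, U, j, hU', hUn, h4, hder⟩
      push Not at h3
      obtain ⟨⟨i, hi'⟩, t, ht⟩ := h3
      refine ⟨r + t * h ^ i, ?_⟩
      have h5 : a - (r + t * h ^ i) ^ p = (U - t ^ p) * h ^ j := by
        rw [add_pow_char, mul_pow, ← pow_mul, mul_comm i p, ← hi', sub_mul, ← hU']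
        ring
      rw [h5, pow_succ']
      exact mul_dvd_mul ht (pow_dvd_pow h hnj)
  obtain ⟨r, hr⟩ := key ((D a).natDegree + 2)
  have h6 : h ^ ((D a).natDegree + 1) ∣ D a := by
    obtain ⟨c, hc⟩ := hr
    have h7 : D a = D (c * h ^ ((D a).natDegree + 2)) := by
      rw [mul_comm c, ← hc, map_sub, der_pow_p (p := p), sub_zero]
    have h8 := der_pow_dvd D c h ((D a).natDegree + 2)
    rw [← h7] at h8
    exact h8
  have h9 := natDegree_le_of_dvd h6 hD
  rw [natDegree_pow] at h9
  nlinarith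

/-- If `h ^ e` divides `b` and `h` is prime to `X`, the order `e` is bounded by the range of the
exponents of `b`. -/
theorem mul_natDegree_le_range {h b : F[X]} (hi : Irreducible h) (hX : ¬ h ∣ X) (hb : b ≠ 0)
    {e : ℕ} (he : h ^ e ∣ b) : e * h.natDegree + b.natTrailingDegree ≤ b.natDegree := by
  obtain ⟨c, hc⟩ := X_pow_dvd_iff.mpr (fun d hd => coeff_eq_zero_of_lt_natTrailingDegree hd :
    ∀ d < b.natTrailingDegree, b.coeff d = 0)
  have hc0 : c ≠ 0 := by
    rintro rfl
    rw [mul_zero] at hc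
    exact hb hc
  have hcop : IsCoprime (h ^ e) (X ^ b.natTrailingDegree) :=
    ((hi.coprime_iff_not_dvd).mpr hX).pow
  have h1 : h ^ e ∣ c := by
    rw [hc] at he
    exact hcop.dvd_of_dvd_mul_left he
  have h2 := natDegree_le_of_dvd h1 hc0
  have h3 : b.natDegree = b.natTrailingDegree + c.natDegree := by
    conv_lhs => rw [hc]
    rw [natDegree_mul (pow_ne_zero _ X_ne_zero) hc0, natDegree_X_pow]
  rw [natDegree_pow] at h2
  omega

end Pool.Agent.LU2T
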