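import Pool.Agent.Lib.LU2_h90.Lead
import Pool.Agent.Lib.LU1_h15.DD
import Pool.Agent.Lib.LU1_h15.ASRed

/-!
# LU2: visible monomials over an imperfect coefficient field

An additive splitting `F = F^p ⊕ W`; the visible part `vp` of a polynomial with coefficients in
the Laurent polynomials; the visible part after a step without growth.
-/

set_option autoImplicit false

open Polynomial

namespace Pool.Agent.LU2T

open Pool.Agent.LU1 (Lau mon cf co SuppIn IsLD All LatData)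
open Pool.Agent.LU1.R1 (co_zero co_add co_sum co_ext co_monomial)

universe u

variable {F : Type u} [Field F]

/-- An additive projection with kernel the `p`-th powers. -/
structure Om (F : Type u) [Field F] (p : ℕ) where
  /-- the projection -/
  ω : F →+ F
  split : ∀ c, ∃ x, c = x ^ p + ω c
  kill : ∀ x, ω (x ^ p) = 0

theorem exists_om (p : ℕ) [hp : Fact p.Prime] [CharP F p] : Nonempty (Om F p) := by
  let _ : Algebra (ZMod p) F := ZMod.algebra F p
  let P : Submodule (ZMod p) F :=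
    { carrier := {c | ∃ x, c = x ^ p}
      add_mem' := by
        rintro _ _ ⟨x, rfl⟩ ⟨y, rfl⟩
        exact ⟨x + y, (add_pow_char x y p).symm⟩
      zero_mem' := ⟨0, (zero_pow hp.out.ne_zero).symm⟩
      smul_mem' := by
        rintro a _ ⟨x, rfl⟩
        refine ⟨a • x, ?_⟩
        rw [_root_.smul_pow, ZMod.pow_card] }
  obtain ⟨f, hf⟩ := LinearMap.exists_leftInverse_of_injective P.subtype P.ker_subtype
  refine ⟨⟨((LinearMap.id - P.subtype.comp f : F →ₗ[ZMod p] F)).toAddMonoidHom, ?_, ?_⟩⟩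
  · intro c
    obtain ⟨x, hx⟩ := (f c).2
    refine ⟨x, ?_⟩
    change c = x ^ p + (c - (f c : F))
    rw [← hx]
    ring
  · intro x
    have h1 : f (x ^ p) = ⟨x ^ p, ⟨x, rfl⟩⟩ := LinearMap.congr_fun hf ⟨x ^ p, ⟨x, rfl⟩⟩
    change x ^ p - (f (x ^ p) : F) = 0
    rw [h1, sub_self]

theorem Om.idem {p : ℕ} (O : Om F p) (c : F) : O.ω (O.ω c) = O.ω c := by
  obtain ⟨x, hx⟩ := O.split c
  have h1 : O.ω c = O.ω (x ^ p) + O.ω (O.ω c) := by rw [← map_add, ← hx]
  rw [O.kill, zero_add] at h1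
  exact h1.symm

theorem Om.not_pow {p : ℕ} (O : Om F p) {c : F} (h : O.ω c ≠ 0) (x : F) : O.ω c ≠ x ^ p := by
  intro h1
  apply h
  rw [← O.idem, h1, O.kill]

theorem Om.eq_zero {p : ℕ} (O : Om F p) {c : F} (h : O.ω c = 0) : ∃ x, c = x ^ p := by
  obtain ⟨x, hx⟩ := O.split c
  rw [h, add_zero] at hx
  exact ⟨x, hx⟩

/-- `(γ, l)` is divisible by `p` in `Γ × ℕ`. -/
def Inv (p : ℕ) (Γ : AddSubgroup ℝ) (γ : ℝ) (l : ℕ) : Prop := p ∣ l ∧ ∃ δ ∈ Γ, γ = p * δ

/-- All monomials are visible: the coefficients at the invisible places are not `p`-th powers. -/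
def NFm (p : ℕ) (Γ : AddSubgroup ℝ) (P : (Lau F)[X]) : Prop :=
  ∀ γ l, co P γ l ≠ 0 → Inv p Γ γ l → ∀ x, co P γ l ≠ x ^ p

/-- `V` is the visible part of `P`. -/
def VisPart {p : ℕ} (O : Om F p) (Γ : AddSubgroup ℝ) (P V : (Lau F)[X]) : Prop :=
  ∀ γ l, (Inv p Γ γ l → co V γ l = O.ω (co P γ l)) ∧ (¬ Inv p Γ γ l → co V γ l = co P γ l)

theorem VisPart.ne {p : ℕ} {O : Om F p} {Γ : AddSubgroup ℝ} {P V : (Lau F)[X]}
    (h : VisPart O Γ P V) {γ : ℝ} {l : ℕ} (h0 : co V γ l ≠ 0) : co P γ l ≠ 0 := by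
  intro h1
  apply h0
  by_cases h2 : Inv p Γ γ l
  · rw [(h γ l).1 h2, h1, map_zero]
  · rw [(h γ l).2 h2, h1]

theorem VisPart.suppIn {p : ℕ} {O : Om F p} {Γ : AddSubgroup ℝ} {P V : (Lau F)[X]}
    (h : VisPart O Γ P V) (hP : SuppIn Γ P) : SuppIn Γ V := fun γ l h0 => hP γ l (h.ne h0)

theorem VisPart.nfm {p : ℕ} {O : Om F p} {Γ : AddSubgroup ℝ} {P V : (Lau F)[X]}
    (h : VisPart O Γ P V) : NFm p Γ V := by
  intro γ l h0 h1 x
  rw [(h γ l).1 h1] at h0 ⊢
  exact O.not_pow h0 x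

theorem VisPart.unique {p : ℕ} {O : Om F p} {Γ : AddSubgroup ℝ} {P V V' : (Lau F)[X]}
    (h : VisPart O Γ P V) (h' : VisPart O Γ P V') : V = V' := by
  apply co_ext
  intro γ l
  by_cases h2 : Inv p Γ γ l
  · rw [(h γ l).1 h2, (h' γ l).1 h2]
  · rw [(h γ l).2 h2, (h' γ l).2 h2]

theorem VisPart.add {p : ℕ} {O : Om F p} {Γ : AddSubgroup ℝ} {P V P' V' : (Lau F)[X]}
    (h : VisPart O Γ P V) (h' : VisPart O Γ P' V') : VisPart O Γ (P + P') (V + V') := by
  intro γ l
  refine ⟨fun h2 => ?_, fun h2 => ?_⟩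
  · rw [co_add, co_add, map_add, (h γ l).1 h2, (h' γ l).1 h2]
  · rw [co_add, co_add, (h γ l).2 h2, (h' γ l).2 h2]

/-- The coefficients of a `p`-th power. -/
theorem co_pow_p (p : ℕ) [hp : Fact p.Prime] [CharP F p] {Γ : AddSubgroup ℝ} {h : (Lau F)[X]}
    (hh : SuppIn Γ h) (γ : ℝ) (l : ℕ) :
    (∃ x, co (h ^ p) γ l = x ^ p) ∧ (co (h ^ p) γ l ≠ 0 → Inv p Γ γ l) := by
  classical
  obtain ⟨S, hS⟩ := Pool.Agent.LU1.A3.exists_finset_co h
  have hsum : h = ∑ a ∈ S, monomial a.2 (mon a.1 (co h a.1 a.2)) := by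
    apply co_ext
    intro γ' l'
    rw [co_sum]
    simp only [co_monomial]
    rw [Finset.sum_ite_eq' S (γ', l') fun a => co h a.1 a.2]
    split_ifs with h1
    · rfl
    · by_contra h2
      exact h1 ((hS γ' l').2 h2)
  have hchar : CharP (Lau F)[X] p := by
    have h1 : Function.Injective ((C : Lau F →+* (Lau F)[X]).comp
        (AddMonoidAlgebra.singleZeroRingHom : F →+* Lau F)) := by
      apply (C_injective).comp
      exact (AddMonoidAlgebra.singleZeroRingHom : F →+* Lau F).injective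
    exact charP_of_injective_ringHom h1 p
  have hpow : h ^ p = ∑ a ∈ S, monomial (a.2 * p) (mon (p * a.1) (co h a.1 a.2 ^ p)) := by
    conv_lhs => rw [hsum, sum_pow_char]
    refine Finset.sum_congr rfl fun a _ => ?_
    rw [monomial_pow, Pool.Agent.LU1.A3.mon_pow]
  have hp0 : (p : ℝ) ≠ 0 := by exact_mod_cast hp.out.ne_zero
  have hco : co (h ^ p) γ l = ∑ a ∈ S, if a = (γ / p, l / p) ∧ p ∣ l then co h a.1 a.2 ^ p
      else 0 := by
    rw [hpow, co_sum]
    refine Finset.sum_congr rfl fun a _ => ?_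
    rw [co_monomial]
    refine if_congr ?_ rfl rfl
    constructor
    · intro h1
      have h2 : (p : ℝ) * a.1 = γ := (Prod.ext_iff.1 h1).1
      have h3 : a.2 * p = l := (Prod.ext_iff.1 h1).2
      refine ⟨Prod.ext ?_ ?_, ⟨a.2, by rw [← h3, mul_comm]⟩⟩
      · change a.1 = γ / p
        rw [← h2]
        field_simp
      · change a.2 = l / p
        rw [← h3, Nat.mul_div_cancel _ hp.out.pos]
    · rintro ⟨rfl, h1⟩
      refine Prod.ext ?_ ?_
      · change (p : ℝ) * (γ / p) = γ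
        field_simp
      · exact Nat.div_mul_cancel h1
  rw [hco]
  by_cases h1 : p ∣ l
  · simp only [h1, and_true]
    rw [Finset.sum_ite_eq' S (γ / p, l / p) fun a => co h a.1 a.2 ^ p]
    split_ifs with h2
    · refine ⟨⟨_, rfl⟩, fun h3 => ⟨h1, γ / p, ?_, ?_⟩⟩
      · apply hh (γ / p) (l / p)
        intro h4
        apply h3
        change co h (γ / p) (l / p) ^ p = 0
        rw [h4, zero_pow hp.out.ne_zero]
      · field_simp
    · exact ⟨⟨0, (zero_pow hp.out.ne_zero).symm⟩, fun h3 => absurd rfl h3⟩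
  · simp only [h1, and_false, if_false, Finset.sum_const_zero]
    exact ⟨⟨0, (zero_pow hp.out.ne_zero).symm⟩, fun h3 => absurd rfl h3⟩

/-- The visible part of a `p`-th power is zero. -/
theorem visPart_pow (p : ℕ) [hp : Fact p.Prime] [CharP F p] (O : Om F p) {Γ : AddSubgroup ℝ}
    {h : (Lau F)[X]} (hh : SuppIn Γ h) : VisPart O Γ (h ^ p) 0 := by
  intro γ l
  obtain ⟨⟨x, hx⟩, h1⟩ := co_pow_p p hh γ l
  refine ⟨fun _ => ?_, fun h2 => ?_⟩
  · rw [co_zero, hx, O.kill]
  · rw [co_zero]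
    by_contra h3
    exact h2 (h1 fun h4 => h3 h4.symm)

/-- Every polynomial is its visible part plus a `p`-th power. -/
theorem exists_visPart (p : ℕ) [hp : Fact p.Prime] [CharP F p] (O : Om F p) {Γ : AddSubgroup ℝ}
    {P : (Lau F)[X]} (hP : SuppIn Γ P) :
    ∃ V h : (Lau F)[X], VisPart O Γ P V ∧ SuppIn Γ h ∧ P = V + h ^ p := by
  classical
  obtain ⟨S, hS⟩ := Pool.Agent.LU1.A3.exists_finset_co P
  choose σ hσ using O.split
  have hp0 : (p : ℝ) ≠ 0 := by exact_mod_cast hp.out.ne_zero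
  let T := S.filter fun a => Inv p Γ a.1 a.2
  let h : (Lau F)[X] := ∑ a ∈ T, monomial (a.2 / p) (mon (a.1 / p) (σ (co P a.1 a.2)))
  have hh : SuppIn Γ h := by
    intro γ l h0
    simp only [h] at h0
    rw [co_sum] at h0
    obtain ⟨a, ha, h1⟩ := Finset.exists_ne_zero_of_sum_ne_zero h0
    rw [co_monomial] at h1
    have h2 : (a.1 / p, a.2 / p) = (γ, l) := by
      by_contra h3
      rw [if_neg h3] at h1
      exact h1 rfl
    obtain ⟨-, h4, δ, hδ, h5⟩ := Finset.mem_filter.1 ha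
    have h6 : a.1 / p = γ := (Prod.ext_iff.1 h2).1
    rw [← h6, h5, mul_div_cancel_left₀ _ hp0]
    exact hδ
  have hchar : CharP (Lau F)[X] p := by
    have h1 : Function.Injective ((C : Lau F →+* (Lau F)[X]).comp
        (AddMonoidAlgebra.singleZeroRingHom : F →+* Lau F)) := by
      apply (C_injective).comp
      exact (AddMonoidAlgebra.singleZeroRingHom : F →+* Lau F).injective
    exact charP_of_injective_ringHom h1 p
  have hpow : h ^ p = ∑ a ∈ T, monomial a.2 (mon a.1 (σ (co P a.1 a.2) ^ p)) := by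
    simp only [h]
    rw [sum_pow_char]
    refine Finset.sum_congr rfl fun a ha => ?_
    obtain ⟨-, h4, δ, hδ, h5⟩ := Finset.mem_filter.1 ha
    rw [monomial_pow, Pool.Agent.LU1.A3.mon_pow, Nat.div_mul_cancel h4]
    congr 2
    field_simp
  have hco : ∀ γ l, co (h ^ p) γ l = if Inv p Γ γ l then σ (co P γ l) ^ p else 0 := by
    intro γ l
    rw [hpow, co_sum]
    simp only [co_monomial]
    rw [Finset.sum_ite_eq' T (γ, l) fun a => σ (co P a.1 a.2) ^ p]
    by_cases h1 : Inv p Γ γ l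
    · rw [if_pos h1]
      split_ifs with h2
      · rfl
      · have h3 : co P γ l = 0 := by
          by_contra h4
          exact h2 (Finset.mem_filter.2 ⟨(hS γ l).2 h4, h1⟩)
        rw [h3]
        have h4 := hσ 0
        rw [map_zero, add_zero] at h4
        exact h4
    · rw [if_neg h1, if_neg]
      intro h2
      exact h1 (Finset.mem_filter.1 h2).2
  refine ⟨P - h ^ p, h, ?_, hh, by ring⟩
  intro γ l
  have h1 : co (P - h ^ p) γ l = co P γ l - co (h ^ p) γ l := by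
    have h2 := co_add (P - h ^ p) (h ^ p) γ l
    rw [sub_add_cancel] at h2
    rw [h2]
    ring
  rw [h1, hco]
  refine ⟨fun h2 => ?_, fun h2 => ?_⟩
  · rw [if_pos h2]
    have h3 := hσ (co P γ l)
    linear_combination h3
  · rw [if_neg h2, sub_zero]

end Pool.Agent.LU2T
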